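import Pool.Agent.Lib.MP_17d4d1_pr.S.Iface

set_option autoImplicit false

/-!
# PROD: the first functional is nonnegative for product weights
-/

namespace Pool.Agent.Lib.MP_17d4d1_pr.S.H30

open Finset Pool.Agent.Lib.MP_17d4d1_pr Pool.Agent.Lib.MP_17d4d1_pr.S

section fibre

variable {κ : Type} [DecidableEq κ]

/-- the embedding of the sets of a fibre -/
def emb (a D : Finset κ) (s : Finset {i // i ∈ D}) : Finset κ :=
  a ∪ s.map (Function.Embedding.subtype _)

theorem mem_emb (a D : Finset κ) (s : Finset {i // i ∈ D}) (i : κ) :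
    i ∈ emb a D s ↔ i ∈ a ∨ ∃ h : i ∈ D, (⟨i, h⟩ : {i // i ∈ D}) ∈ s := by
  unfold emb
  rw [mem_union, mem_map]
  refine or_congr_right ⟨?_, ?_⟩
  · rintro ⟨⟨j, hj⟩, h1, rfl⟩
    exact ⟨hj, h1⟩
  · rintro ⟨h, h1⟩
    exact ⟨⟨i, h⟩, h1, rfl⟩

theorem emb_mono (a D : Finset κ) : Monotone (emb a D) := by
  intro s t hst i hi
  rw [mem_emb] at hi ⊢
  exact hi.imp id fun ⟨h, h1⟩ => ⟨h, hst h1⟩

theorem ind_emb {f : Finset κ → ℝ} (hf : Ind f) (a D : Finset κ) :
    Ind fun s => f (emb a D s) :=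
  ⟨fun s => hf.val _, fun _ _ h => hf.mono (emb_mono a D h)⟩

/-- the sum over a fibre -/
theorem fibre_sum [Fintype κ] (a b : Finset κ) (hab : a ⊆ b) (T : Finset κ → Finset κ → ℝ) :
    ∑ p ∈ (univ : Finset (Finset κ × Finset κ)).filter
        (fun p => (p.1 ∩ p.2, p.1 ∪ p.2) = (a, b)), T p.1 p.2 =
      ∑ s : Finset {i // i ∈ b \ a}, T (emb a (b \ a) s) (emb a (b \ a) sᶜ) := by
  symm
  refine sum_bij' (fun s _ => (emb a (b \ a) s, emb a (b \ a) sᶜ))
    (fun p _ => univ.filter fun i : {i // i ∈ b \ a} => i.val ∈ p.1) ?_ ?_ ?_ ?_ ?_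
  · intro s _
    rw [mem_filter]
    refine ⟨mem_univ _, ?_⟩
    rw [Prod.mk.injEq]
    constructor
    · ext i
      simp only [mem_inter, mem_emb, mem_compl]
      constructor
      · rintro ⟨h1 | ⟨h1, h2⟩, h3 | ⟨h3, h4⟩⟩
        · exact h1
        · exact h1
        · exact h3
        · exact absurd h2 h4
      · intro h
        exact ⟨Or.inl h, Or.inl h⟩
    · ext i
      simp only [mem_union, mem_emb, mem_compl]
      constructor
      · rintro ((h1 | ⟨h1, h2⟩) | (h3 | ⟨h3, h4⟩))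
        · exact hab h1
        · exact (mem_sdiff.1 h1).1
        · exact hab h3
        · exact (mem_sdiff.1 h3).1
      · intro h
        by_cases ha : i ∈ a
        · exact Or.inl (Or.inl ha)
        · have hi : i ∈ b \ a := mem_sdiff.2 ⟨h, ha⟩
          by_cases hs : (⟨i, hi⟩ : {i // i ∈ b \ a}) ∈ s
          · exact Or.inl (Or.inr ⟨hi, hs⟩)
          · exact Or.inr (Or.inr ⟨hi, hs⟩)
  · intro p _
    exact mem_univ _
  · intro s _
    ext ⟨i, hi⟩
    simp only [mem_filter, mem_univ, true_and, mem_emb]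
    have hia := (mem_sdiff.1 hi).2
    constructor
    · rintro (h | ⟨h, h1⟩)
      · exact absurd h hia
      · exact h1
    · intro h
      exact Or.inr ⟨hi, h⟩
  · rintro ⟨x, y⟩ hp
    rw [mem_filter] at hp
    have hp2 := hp.2
    simp only [Prod.mk.injEq] at hp2
    obtain ⟨h1, h2⟩ := hp2
    have hinter : ∀ i, i ∈ a ↔ i ∈ x ∧ i ∈ y := fun i => by rw [← h1, mem_inter]
    have hunion : ∀ i, i ∈ b ↔ i ∈ x ∨ i ∈ y := fun i => by rw [← h2, mem_union]
    rw [Prod.mk.injEq]
    constructor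
    · ext i
      simp only [mem_emb, mem_filter, mem_univ, true_and, mem_sdiff, hinter, hunion]
      by_cases hx : i ∈ x <;> by_cases hy : i ∈ y <;> simp [hx, hy]
    · ext i
      simp only [mem_emb, mem_compl, mem_filter, mem_univ, true_and, mem_sdiff, hinter, hunion]
      by_cases hx : i ∈ x <;> by_cases hy : i ∈ y <;> simp [hx, hy]
  · intro s _
    rfl

end fibre

variable {κ : Type} [Fintype κ] [DecidableEq κ]

theorem pw_nonneg {r : κ → ℝ} (h0 : ∀ i, 0 ≤ r i) (h1 : ∀ i, r i ≤ 1) (S : Finset κ) :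
    0 ≤ pw r S := by
  unfold pw
  refine prod_nonneg fun i _ => ?_
  split_ifs
  · exact h0 i
  · linarith [h1 i]

theorem pw_sum (r : κ → ℝ) : ∑ S : Finset κ, pw r S = 1 := by
  have h := Finset.prod_add (fun i => r i) (fun i => 1 - r i) (univ : Finset κ)
  have h1 : ∏ i : κ, (r i + (1 - r i)) = 1 := by
    refine prod_eq_one fun i _ => by ring
  rw [h1] at h
  rw [h, powerset_univ]
  refine sum_congr rfl fun S _ => ?_
  unfold pw
  rw [prod_ite]
  congr 1
  · refine prod_congr ?_ fun _ _ => rfl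
    ext i; simp
  · refine prod_congr ?_ fun _ _ => rfl
    ext i; simp

theorem pw_mul (r : κ → ℝ) (x y : Finset κ) :
    pw r x * pw r y = pw r (x ∩ y) * pw r (x ∪ y) := by
  unfold pw
  rw [← prod_mul_distrib, ← prod_mul_distrib]
  refine prod_congr rfl fun i _ => ?_
  by_cases hx : i ∈ x <;> by_cases hy : i ∈ y <;> simp [hx, hy, mul_comm]

/-- module PROD -/
theorem prod (hW : WORDS_S) : PROD_S := by
  intro κ _ _ r h0 h1 f g h hf hg hh
  set T : Finset κ → Finset κ → ℝ := fun x y =>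
    f x * g x * h x * (1 + h y) - f x * g x * h y - f x * h x * (g y * h y) with hT
  -- the functional as a double sum
  have hUS : US (pw r) f g h = ∑ p : Finset κ × Finset κ, pw r p.1 * pw r p.2 * T p.1 p.2 := by
    have e1 : ∀ u v : Finset κ → ℝ, ∑ p : Finset κ × Finset κ,
        pw r p.1 * pw r p.2 * (u p.1 * v p.2) = Ex (pw r) u * Ex (pw r) v := by
      intro u v
      unfold Ex
      rw [Fintype.sum_prod_type, sum_mul_sum]
      refine sum_congr rfl fun x _ => sum_congr rfl fun y _ => ?_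
      ring
    have e2 : Ex (pw r) (1 : Finset κ → ℝ) = 1 := by
      unfold Ex
      simp only [Pi.one_apply, mul_one]
      exact pw_sum r
    have e3 : ∀ p : Finset κ × Finset κ, pw r p.1 * pw r p.2 * T p.1 p.2 =
        pw r p.1 * pw r p.2 * ((f * g * h) p.1 * (1 : Finset κ → ℝ) p.2) +
        pw r p.1 * pw r p.2 * ((f * g * h) p.1 * h p.2) -
        pw r p.1 * pw r p.2 * ((f * g) p.1 * h p.2) -
        pw r p.1 * pw r p.2 * ((f * h) p.1 * (g * h) p.2) := by
      intro p
      simp only [hT, Pi.mul_apply, Pi.one_apply]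
      ring
    rw [sum_congr rfl fun p _ => e3 p, sum_sub_distrib, sum_sub_distrib, sum_add_distrib,
      e1, e1, e1, e1, e2]
    unfold US
    ring
  rw [hUS]
  rw [← sum_fiberwise_of_maps_to (t := (univ : Finset (Finset κ × Finset κ)))
    (g := fun p : Finset κ × Finset κ => (p.1 ∩ p.2, p.1 ∪ p.2)) (fun _ _ => mem_univ _)]
  refine sum_nonneg fun q _ => ?_
  obtain ⟨a, b⟩ := q
  by_cases hab : a ⊆ b
  · have e1 : ∑ p ∈ (univ : Finset (Finset κ × Finset κ)).filter
        (fun p => (p.1 ∩ p.2, p.1 ∪ p.2) = (a, b)), pw r p.1 * pw r p.2 * T p.1 p.2 =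
        pw r a * pw r b * ∑ p ∈ (univ : Finset (Finset κ × Finset κ)).filter
        (fun p => (p.1 ∩ p.2, p.1 ∪ p.2) = (a, b)), T p.1 p.2 := by
      rw [mul_sum]
      refine sum_congr rfl fun p hp => ?_
      have h2 := (mem_filter.1 hp).2
      simp only [Prod.mk.injEq] at h2
      rw [pw_mul, h2.1, h2.2]
    rw [e1, fibre_sum a b hab T]
    refine mul_nonneg (mul_nonneg (pw_nonneg h0 h1 _) (pw_nonneg h0 h1 _)) ?_
    exact hW {i // i ∈ b \ a} (fun s => f (emb a (b \ a) s)) (fun s => g (emb a (b \ a) s))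
      (fun s => h (emb a (b \ a) s)) (ind_emb hf _ _) (ind_emb hg _ _) (ind_emb hh _ _)
  · refine le_of_eq (sum_eq_zero fun p hp => ?_).symm
    exfalso
    have h2 := (mem_filter.1 hp).2
    simp only [Prod.mk.injEq] at h2
    apply hab
    rw [← h2.1, ← h2.2]
    exact inter_subset_left.trans subset_union_left

end Pool.Agent.Lib.MP_17d4d1_pr.S.H30
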