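import Pool.Agent.Lib.MP_17d4d1_pr.S.Iface

set_option autoImplicit false

/-!
# WORDS: the inequality for complementary pairs of sets
-/

namespace Pool.Agent.Lib.MP_17d4d1_pr.S.H30

open Finset Pool.Agent.Lib.MP_17d4d1_pr Pool.Agent.Lib.MP_17d4d1_pr.S

open scoped Classical

variable {α : Type} [Fintype α] [DecidableEq α]

/-- if the lower sums vanish above the complement of `x`, then the upper sum at `x` vanishes -/
theorem upper_zero (φ : Finset α → ℝ) (x : Finset α)
    (h : ∀ z, xᶜ ⊆ z → ∑ y ∈ univ.filter (fun y => y ⊆ z), φ y = 0) :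
    ∑ y ∈ univ.filter (fun y => x ⊆ y), φ y = 0 := by
  have key : ∀ u : Finset α, u ⊆ x → ∀ w : Finset α, w ⊆ x →
      ∑ y ∈ univ.filter (fun y => u ⊆ y ∧ Disjoint y w), φ y = 0 := by
    intro u
    induction u using Finset.induction_on with
    | empty =>
      intro _ w hw
      have h1 : (univ.filter fun y : Finset α => ∅ ⊆ y ∧ Disjoint y w) =
          univ.filter fun y => y ⊆ wᶜ := by
        ext y
        simp only [mem_filter, mem_univ, true_and, empty_subset]
        rw [subset_compl_iff_disjoint_right]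
      rw [h1]
      exact h _ (compl_subset_compl.2 hw)
    | insert a u ha ih =>
      intro hu w hw
      have hax : a ∈ x := hu (mem_insert_self a u)
      have hux : u ⊆ x := fun i hi => hu (mem_insert_of_mem hi)
      have h1 := ih hux w hw
      have h2 := ih hux (insert a w) (insert_subset hax hw)
      rw [← sum_filter_add_sum_filter_not _ (fun y => a ∈ y), filter_filter, filter_filter] at h1
      have h3 : (univ.filter fun y : Finset α => (u ⊆ y ∧ Disjoint y w) ∧ ¬ a ∈ y) =
          univ.filter fun y => u ⊆ y ∧ Disjoint y (insert a w) := by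
        ext y
        simp only [mem_filter, mem_univ, true_and]
        rw [disjoint_insert_right]
        tauto
      have h4 : (univ.filter fun y : Finset α => (u ⊆ y ∧ Disjoint y w) ∧ a ∈ y) =
          univ.filter fun y => insert a u ⊆ y ∧ Disjoint y w := by
        ext y
        simp only [mem_filter, mem_univ, true_and, insert_subset_iff]
        tauto
      rw [h3, h2, add_zero, h4] at h1
      exact h1
  have := key x Subset.rfl ∅ (empty_subset x)
  simpa using this

/-- vanishing upper sums on an up-set -/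
theorem zero_of_upper (φ : Finset α → ℝ) (C : Finset α → Prop)
    (hC : ∀ x y, x ⊆ y → C x → C y)
    (h : ∀ x, C x → ∑ y ∈ univ.filter (fun y => x ⊆ y), φ y = 0) : ∀ x, C x → φ x = 0 := by
  have key : ∀ n : ℕ, ∀ x : Finset α, xᶜ.card = n → C x → φ x = 0 := by
    intro n
    induction n using Nat.strong_induction_on with
    | _ n ih =>
      intro x hx hCx
      have h1 := h x hCx
      have h2 : ∑ y ∈ univ.filter (fun y => x ⊆ y), φ y = φ x := by
        refine sum_eq_single x ?_ ?_
        · intro y hy hne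
          rw [mem_filter] at hy
          have hss : x ⊂ y := lt_of_le_of_ne hy.2 (Ne.symm hne)
          refine ih yᶜ.card ?_ y rfl (hC x y hy.2 hCx)
          rw [← hx]
          exact card_lt_card (compl_ssubset_compl.2 hss)
        · intro hn
          exact absurd (mem_filter.2 ⟨mem_univ x, Subset.rfl⟩) hn
      rw [← h2, h1]
  intro x hx
  exact key _ x rfl hx

/-- the set of the linear algebra argument -/
def SS (A B C : Finset α → Prop) (x : Finset α) : Prop :=
  A x ∧ C xᶜ ∧ ((C x ∧ B xᶜ) ∨ (¬ C x ∧ B x))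

theorem words_core (A B C : Finset α → Prop) (hA : ∀ x y, x ⊆ y → A x → A y)
    (hB : ∀ x y, x ⊆ y → B x → B y) (hC : ∀ x y, x ⊆ y → C x → C y) (φ : Finset α → ℝ)
    (hφ : ∀ x, φ x ≠ 0 → SS A B C x)
    (hψ : ∀ z, A z → B z → C z → ∑ y ∈ univ.filter (fun y => y ⊆ z), φ y = 0) :
    ∀ x, φ x = 0 := by
  -- (1)
  have h1 : ∀ z, B z → C z → ∑ y ∈ univ.filter (fun y => y ⊆ z), φ y = 0 := by
    intro z hz1 hz2
    by_cases hz : A z
    · exact hψ z hz hz1 hz2
    · refine sum_eq_zero fun y hy => ?_
      by_contra hne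
      exact hz (hA y z (mem_filter.1 hy).2 (hφ y hne).1)
  have h1' : ∀ x, B xᶜ → C xᶜ → ∑ y ∈ univ.filter (fun y => x ⊆ y), φ y = 0 := by
    intro x hx1 hx2
    exact upper_zero φ x fun z hz => h1 z (hB _ _ hz hx1) (hC _ _ hz hx2)
  -- (2)
  have h2 : ∀ x, C x → ∑ y ∈ univ.filter (fun y => x ⊆ y), φ y = 0 := by
    intro x hx
    by_cases hxc : C xᶜ
    · by_cases hxb : B xᶜ
      · exact h1' x hxb hxc
      · refine sum_eq_zero fun y hy => ?_
        by_contra hne
        have hxy := (mem_filter.1 hy).2
        obtain ⟨-, -, h | h⟩ := hφ y hne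
        · exact hxb (hB _ _ (compl_subset_compl.2 hxy) h.2)
        · exact h.1 (hC _ _ hxy hx)
    · refine sum_eq_zero fun y hy => ?_
      by_contra hne
      have hxy := (mem_filter.1 hy).2
      exact hxc (hC _ _ (compl_subset_compl.2 hxy) (hφ y hne).2.1)
  -- (3)
  have h3 : ∀ x, C x → φ x = 0 := zero_of_upper φ C hC h2
  have h3' : ∀ x, φ x ≠ 0 → A x ∧ B x := by
    intro x hx
    obtain ⟨ha, -, h | h⟩ := hφ x hx
    · exact absurd (h3 x h.1) hx
    · exact ⟨ha, h.2⟩
  -- (4)
  have h4 : ∀ z, C z → ∑ y ∈ univ.filter (fun y => y ⊆ z), φ y = 0 := by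
    intro z hz
    by_cases hab : A z ∧ B z
    · exact hψ z hab.1 hab.2 hz
    · refine sum_eq_zero fun y hy => ?_
      by_contra hne
      have hyz := (mem_filter.1 hy).2
      have := h3' y hne
      exact hab ⟨hA _ _ hyz this.1, hB _ _ hyz this.2⟩
  have h5 : ∀ x, ∑ y ∈ univ.filter (fun y => x ⊆ y), φ y = 0 := by
    intro x
    by_cases hxc : C xᶜ
    · exact upper_zero φ x fun z hz => h4 z (hC _ _ hz hxc)
    · refine sum_eq_zero fun y hy => ?_
      by_contra hne
      have hxy := (mem_filter.1 hy).2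
      exact hxc (hC _ _ (compl_subset_compl.2 hxy) (hφ y hne).2.1)
  exact fun x => zero_of_upper φ (fun _ => True) (fun _ _ _ _ => trivial) (fun x _ => h5 x) x
    trivial

/-- extension by zero -/
noncomputable def ext0 (S : Finset (Finset α)) (φ : S → ℝ) (x : Finset α) : ℝ :=
  if hx : x ∈ S then φ ⟨x, hx⟩ else 0

/-- the linear map of the argument -/
noncomputable def lmap (S T : Finset (Finset α)) : (S → ℝ) →ₗ[ℝ] (T → ℝ) where
  toFun φ z := ∑ y ∈ univ.filter (fun y => y ⊆ z.val), ext0 S φ y
  map_add' φ φ' := by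
    funext z
    rw [Pi.add_apply, ← sum_add_distrib]
    refine sum_congr rfl fun y _ => ?_
    unfold ext0
    split_ifs <;> simp
  map_smul' c φ := by
    funext z
    rw [Pi.smul_apply, RingHom.id_apply, smul_sum]
    refine sum_congr rfl fun y _ => ?_
    unfold ext0
    split_ifs <;> simp

theorem card_le (A B C : Finset α → Prop) (hA : ∀ x y, x ⊆ y → A x → A y)
    (hB : ∀ x y, x ⊆ y → B x → B y) (hC : ∀ x y, x ⊆ y → C x → C y) :
    (univ.filter (SS A B C)).card ≤ (univ.filter fun x => A x ∧ B x ∧ C x).card := by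
  set S := univ.filter (SS A B C) with hS
  set T := univ.filter fun x => A x ∧ B x ∧ C x with hT
  have hinj : Function.Injective (lmap S T) := by
    rw [injective_iff_map_eq_zero]
    intro φ hφ
    have h1 : ∀ x, ext0 S φ x = 0 := by
      refine words_core A B C hA hB hC _ ?_ ?_
      · intro x hx
        unfold ext0 at hx
        split_ifs at hx with h
        · exact (mem_filter.1 h).2
        · exact absurd rfl hx
      · intro z h1 h2 h3
        exact congrFun hφ ⟨z, mem_filter.2 ⟨mem_univ _, h1, h2, h3⟩⟩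
    funext x
    have h2 := h1 x.1
    unfold ext0 at h2
    rw [dif_pos x.2] at h2
    exact h2
  have h1 := LinearMap.finrank_le_finrank_of_injective hinj
  rw [Module.finrank_fintype_fun_eq_card, Module.finrank_fintype_fun_eq_card,
    Fintype.card_coe, Fintype.card_coe] at h1
  exact h1

/-- module WORDS -/
theorem words : WORDS_S := by
  intro α _ _ f g h hf hg hh
  have up : ∀ u : Finset α → ℝ, Ind u → ∀ x y, x ⊆ y → u x = 1 → u y = 1 := by
    intro u hu x y hxy hx
    rcases hu.val y with h0 | h0
    · have := hu.mono hxy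
      rw [hx, h0] at this
      linarith
    · exact h0
  have hc := card_le (fun x => f x = 1) (fun x => g x = 1) (fun x => h x = 1) (up f hf) (up g hg)
    (up h hh)
  have hpt : ∀ x : Finset α, (f x * g x * h x * (1 + h xᶜ) - f x * g x * h xᶜ
      - f x * h x * (g xᶜ * h xᶜ)) =
      (if f x = 1 ∧ g x = 1 ∧ h x = 1 then (1 : ℝ) else 0) -
        (if SS (fun x => f x = 1) (fun x => g x = 1) (fun x => h x = 1) x then (1 : ℝ) else 0) := by
    intro x
    unfold SS
    rcases hf.val x with h1 | h1 <;> rcases hg.val x with h2 | h2 <;>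
      rcases hh.val x with h3 | h3 <;> rcases hg.val xᶜ with h4 | h4 <;>
      rcases hh.val xᶜ with h5 | h5 <;> simp [h1, h2, h3, h4, h5]
  rw [sum_congr rfl fun x _ => hpt x, sum_sub_distrib, sum_boole, sum_boole, sub_nonneg]
  exact_mod_cast hc

end Pool.Agent.Lib.MP_17d4d1_pr.S.H30
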